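import Pool.Agent.Lib.PolyFun.Final

/-!
# From `PT` to Mathlib's `TM2ComputableInPolyTime`, on codes

If `f` is computable in polynomial time in the sense of `PT`, then `f` is computable in polynomial
time by a `TM2` machine that reads `code x` and writes `code (f x)`.
-/

open Turing StateTransition

namespace Pool.Agent.Lib.PolyFun

open Pool.Agent.Lib.PolyTM

theorem does_mvMA (i m a b c o : List Bool) : Does (mvAll .main .a) (st i m a b c o)
    (4 * m.length + 2) (st i [] (m.reverse ++ a) b c o) := by
  refine Rch.finish ?_ rfl
  induction m generalizing a with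
  | nil => exact Rch.refl _
  | cons s m ih =>
    have h1 := does_mv (y := .a) (st i (s :: m) a b c o) (x := .main) (s := s) (l := m) rfl
    simp only [upd_main, st_a, upd_a] at h1
    have h2 := (Rch.step (x := .main) (P := fun v => v.isSome) rfl h1).trans (ih (s :: a))
    simp only [List.reverse_cons, List.append_assoc, List.singleton_append]
    exact h2.mono (by simp; omega)

theorem does_mvAO (i m a b c o : List Bool) : Does (mvAll .a .out) (st i m a b c o)
    (4 * a.length + 2) (st i m [] b c (a.reverse ++ o)) := by
  refine Rch.finish ?_ rfl
  induction a generalizing o with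
  | nil => exact Rch.refl _
  | cons s a ih =>
    have h1 := does_mv (y := .out) (st i m (s :: a) b c o) (x := .a) (s := s) (l := a) rfl
    simp only [upd_a, st_out, upd_out] at h1
    have h2 := (Rch.step (x := .a) (P := fun v => v.isSome) rfl h1).trans (ih (s :: o))
    simp only [List.reverse_cons, List.append_assoc, List.singleton_append]
    exact h2.mono (by simp; omega)

/-- Copy the input to the main stack. -/
def readCode : Prog := .seq (mvAll .inp .a) (mvAll .a .main)

theorem does_readCode (x : List Bool) :
    Does readCode (st x [] [] [] [] []) (8 * x.length + 4) (M x) := by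
  have h1 := does_mvI x [] [] [] [] []
  rw [List.append_nil] at h1
  have h2 := does_mvA [] [] x.reverse [] [] []
  rw [List.reverse_reverse, List.append_nil, List.length_reverse] at h2
  exact (h1.seq h2).mono (by omega)

/-- Copy the main stack to the output. -/
def writeCode : Prog := .seq (mvAll .main .a) (mvAll .a .out)

theorem does_writeCode (y : List Bool) :
    Does writeCode (M y) (8 * y.length + 4) (st [] [] [] [] [] y) := by
  have h1 := does_mvMA [] y [] [] [] []
  rw [List.append_nil] at h1
  have h2 := does_mvAO [] [] y.reverse [] [] []
  rw [List.reverse_reverse, List.append_nil, List.length_reverse] at h2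
  exact (h1.seq h2).mono (by omega)

/-- From `PT` to Mathlib's notion, on codes. -/
theorem tm2_code_of_PT {α β : Type} [TEnc α] [TEnc β] (f : α → β) (hf : PT f) :
    Nonempty (TM2ComputableInPolyTime (code : α → List Bool) (code : β → List Bool) f) := by
  obtain ⟨q, hq⟩ := hf.size
  obtain ⟨c, p, h⟩ := hf
  let prog : Prog := .seq readCode (.seq c writeCode)
  let T : Polynomial ℕ := (8 * Polynomial.X + 4) + (p + (8 * q + 4)) + 2
  have hT : ∀ n : ℕ, T.eval n = (8 * n + 4) + (p.eval n + (8 * q.eval n + 4)) + 2 := by
    intro n
    simp [T]
  have key : ∀ (x : α),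
      Nonempty (TM2OutputsInTime (machine prog) (code x) (some (code (f x)))
        (T.eval (code x).length)) := by
    intro x
    have a1 := does_readCode (code x)
    have a2 := h x []
    rw [List.append_nil, List.append_nil] at a2
    have a3 := does_writeCode (code (f x))
    obtain ⟨v, n, hn, hr⟩ := (a1.seq (a2.seq a3)) none
    have h1 := Cmd.Run.seq hr (Cmd.Run.load (fun _ => none) v _)
    have h2 := Cmd.tr_correct h1 (machine prog).m some none (fun _ => rfl)
    have h3 : Cmd.Steps (machine prog).m 1 ⟨some none, none, st [] [] [] [] [] (code (f x))⟩
        ⟨none, none, st [] [] [] [] [] (code (f x))⟩ := Cmd.Steps.one rfl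
    have h4 := h2.trans h3
    have e1 : initList (machine prog) (code x) = ⟨some (some
        (Cmd.seq prog (.load fun _ => none)).entry), none, st (code x) [] [] [] [] []⟩ := by
      unfold initList
      congr 1
      funext k
      cases k <;> rfl
    have e2 : haltList (machine prog) (code (f x)) =
        ⟨none, none, st [] [] [] [] [] (code (f x))⟩ := by
      unfold haltList
      congr 1
      funext k
      cases k <;> rfl
    refine ⟨⟨⟨n + 1 + 1, ?_⟩, ?_⟩⟩
    · exact (congrArg (fun c => (flip bind (machine prog).step)^[n + 1 + 1] (some c)) e1).trans
        (Eq.trans h4 (congrArg some e2.symm))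
    · change n + 1 + 1 ≤ _
      rw [hT]
      have b3 := hq x
      change (code (f x)).length ≤ _ at b3
      change _ ≤ (8 * (code x).length + 4) + (p.eval (sz x) + (8 * q.eval (sz x) + 4)) + 2
      omega
  refine ⟨{
    tm := machine prog
    inputAlphabet := Equiv.refl _
    outputAlphabet := Equiv.refl _
    time := T
    outputsFun := ?_ }⟩
  intro x
  have h' : ∀ (l : List Bool) (l' : List Bool), l = code x → l' = code (f x) →
      TM2OutputsInTime (machine prog) l (some l') (T.eval (code x).length) := by
    rintro _ _ rfl rfl
    exact Classical.choice (key _)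
  exact h' (List.map (Equiv.refl Bool).invFun (code x))
    (List.map (Equiv.refl Bool).invFun (code (f x))) (by simp) (by simp)

end Pool.Agent.Lib.PolyFun
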