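import Pool.Agent.Lib.PolyFun.Data

/-!
# From `PT` to Mathlib's `TM2ComputableInPolyTime`

If `x ↦ eb (f x)` is computable in polynomial time in the sense of `PT`, then the function `f` is
computable in polynomial time by a `TM2` machine (with the identity as input encoding and `eb` as
output encoding).
-/

open Turing StateTransition

namespace Pool.Agent.Lib.PolyFun

open Pool.Agent.Lib.PolyTM

/-- Read one symbol of the input, which was moved to the stack `a`. -/
def readBody : Prog :=
  .seq (.pop .a fun _ o => o) (.seq (.ite (fun v => v.getD false)
    (pushList [true, false, false]) (pushList [false])) (push .main true))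

theorem does_readBody (s : Bool) (a m : List Bool) :
    Does readBody (st [] m (s :: a) [] [] []) 7
      (st [] (true :: (code s ++ m)) a [] [] []) := by
  intro v
  have h1 := Cmd.Run.pop (Γ := Ga) (σ := Va) .a (fun _ o => o) v (st [] m (s :: a) [] [] [])
  simp only [st_a, List.head?_cons, List.tail_cons, upd_a] at h1
  cases s with
  | false =>
    have h2 : Does (.seq (pushList [false]) skip) (st [] m a [] [] []) 3
        (st [] (false :: m) a [] [] []) := by
      have := does_push .main false (st [] m a [] [] [])
      simp only [st_main, upd_main] at this
      exact ((does_skip _).seq this).seq (does_skip _)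
    have h3 : Does (pushList [false]) (st [] m a [] [] []) 2
        (st [] (false :: m) a [] [] []) := by
      have := does_push .main false (st [] m a [] [] [])
      simp only [st_main, upd_main] at this
      exact (does_skip _).seq this
    have h4 : Does (push .main true) (st [] (false :: m) a [] [] []) 1
        (st [] (true :: false :: m) a [] [] []) := by
      have := does_push .main true (st [] (false :: m) a [] [] [])
      simpa using this
    obtain ⟨v1, n1, hn1, hr1⟩ := h3 (some false)
    obtain ⟨v2, n2, hn2, hr2⟩ := h4 v1
    exact ⟨v2, _, (by omega : 1 + ((n1 + 1) + n2) ≤ 7), .seq h1 (.seq (.ite_false rfl hr1) hr2)⟩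
  | true =>
    have h3 : Does (pushList [true, false, false]) (st [] m a [] [] []) 4
        (st [] (true :: false :: false :: m) a [] [] []) := by
      have a1 := does_push .main false (st [] m a [] [] [])
      have a2 := does_push .main false (st [] (false :: m) a [] [] [])
      have a3 := does_push .main true (st [] (false :: false :: m) a [] [] [])
      simp only [st_main, upd_main] at a1 a2 a3
      exact (((does_skip _).seq a1).seq a2).seq a3
    have h4 : Does (push .main true) (st [] (true :: false :: false :: m) a [] [] []) 1
        (st [] (true :: true :: false :: false :: m) a [] [] []) := by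
      have := does_push .main true (st [] (true :: false :: false :: m) a [] [] [])
      simpa using this
    obtain ⟨v1, n1, hn1, hr1⟩ := h3 (some true)
    obtain ⟨v2, n2, hn2, hr2⟩ := h4 v1
    exact ⟨v2, _, (by omega : 1 + ((n1 + 1) + n2) ≤ 7), .seq h1 (.seq (.ite_true rfl hr1) hr2)⟩

/-- Read the input. -/
def readInput : Prog :=
  .seq (mvAll .inp .a) (.seq (push .main false) (whileTop .a (fun v => v.isSome) readBody))

theorem does_readInput (x : List Bool) :
    Does readInput (st x [] [] [] [] []) (13 * x.length + 5) (M (code x)) := by
  have h1 := does_mvI x [] [] [] [] []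
  rw [List.append_nil] at h1
  have h2 : Does (push .main false) (st [] [] x.reverse [] [] []) 1
      (st [] (code ([] : List Bool)) x.reverse [] [] []) := by
    have := does_push .main false (st [] [] x.reverse [] [] [])
    rw [code_nil]
    simpa using this
  have h3 : ∀ (y l : List Bool), Rch .a (fun v => v.isSome) readBody
      (st [] (code l) y [] [] []) (9 * y.length) (st [] (code (y.reverse ++ l)) [] [] [] []) := by
    intro y
    induction y with
    | nil => intro l; exact Rch.refl _
    | cons s y ih =>
      intro l
      have a1 := Rch.step (x := .a) (P := fun v => v.isSome) rfl (does_readBody s y (code l))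
      have a2 := a1.trans (ih (s :: l))
      have e : (s :: y).reverse ++ l = y.reverse ++ s :: l := by simp
      rw [e]
      exact a2.mono (by simp; omega)
  have h4 := (h3 x.reverse []).finish (x := .a) rfl
  rw [List.reverse_reverse, List.append_nil, List.length_reverse] at h4
  exact (h1.seq (h2.seq h4)).mono (by omega)

/-- Write one symbol of the output. -/
def writeBody : Prog :=
  .seq (pop .main) (.seq (.pop .main fun _ o => o) (.ite (fun v => v.getD false)
    (.seq (pop .main) (.seq (pop .main) (push .out true))) (push .out false)))

theorem does_writeBody (s : Bool) (m o : List Bool) :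
    Does writeBody (st [] (true :: (code s ++ m)) [] [] [] o) 6
      (st [] m [] [] [] (s :: o)) := by
  intro v
  have h1 := Cmd.Run.pop (Γ := Ga) (σ := Va) .main (fun v _ => v) v
    (st [] (true :: (code s ++ m)) [] [] [] o)
  simp only [st_main, List.tail_cons, upd_main] at h1
  have h2 := Cmd.Run.pop (Γ := Ga) (σ := Va) .main (fun _ o => o) v
    (st [] (code s ++ m) [] [] [] o)
  simp only [st_main, upd_main] at h2
  cases s with
  | false =>
    have e1 : (code false ++ m).tail = m := rfl
    have e2 : (code false ++ m).head? = some false := rfl
    rw [e1, e2] at h2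
    have h3 : Does (push .out false) (st [] m [] [] [] o) 1 (st [] m [] [] [] (false :: o)) := by
      have := does_push .out false (st [] m [] [] [] o)
      simpa using this
    obtain ⟨v1, n1, hn1, hr1⟩ := h3 (some false)
    exact ⟨v1, _, (by omega : 1 + (1 + (n1 + 1)) ≤ 6), .seq h1 (.seq h2 (.ite_false rfl hr1))⟩
  | true =>
    have e1 : (code true ++ m).tail = false :: false :: m := rfl
    have e2 : (code true ++ m).head? = some true := rfl
    rw [e1, e2] at h2
    have h3 : Does (.seq (pop .main) (.seq (pop .main) (push .out true)))
        (st [] (false :: false :: m) [] [] [] o) 3 (st [] m [] [] [] (true :: o)) := by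
      have a1 := does_pop .main (st [] (false :: false :: m) [] [] [] o)
      have a2 := does_pop .main (st [] (false :: m) [] [] [] o)
      have a3 := does_push .out true (st [] m [] [] [] o)
      simp only [st_main, st_out, upd_main, upd_out, List.tail_cons] at a1 a2 a3
      exact a1.seq (a2.seq a3)
    obtain ⟨v1, n1, hn1, hr1⟩ := h3 (some true)
    exact ⟨v1, _, (by omega : 1 + (1 + (n1 + 1)) ≤ 6), .seq h1 (.seq h2 (.ite_true rfl hr1))⟩

/-- Write the output. -/
def writeOutput : Prog :=
  .seq (whileTop .main (fun v => v.getD false) writeBody) (pop .main)

theorem does_writeOutput (y : List Bool) :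
    Does writeOutput (M (code y)) (8 * y.length + 3) (st [] [] [] [] [] y.reverse) := by
  have h3 : ∀ (y o : List Bool), Rch .main (fun v => v.getD false) writeBody
      (st [] (code y) [] [] [] o) (8 * y.length) (st [] [false] [] [] [] (y.reverse ++ o)) := by
    intro y
    induction y with
    | nil => intro o; exact Rch.refl _
    | cons s y ih =>
      intro o
      have a1 := Rch.step (x := .main) (P := fun v => v.getD false) rfl
        (does_writeBody s (code y) o)
      have a2 := a1.trans (ih (s :: o))
      have e : (s :: y).reverse ++ o = y.reverse ++ s :: o := by simp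
      rw [e]
      exact a2.mono (by simp; omega)
  have h4 := (h3 y []).finish (x := .main) rfl
  rw [List.append_nil] at h4
  have h5 : Does (pop .main) (st [] [false] [] [] [] y.reverse) 1
      (st [] [] [] [] [] y.reverse) := by
    have := does_pop .main (st [] [false] [] [] [] y.reverse)
    simpa using this
  exact (h4.seq h5).mono (by omega)

/-- The machine that runs the program `c`. -/
noncomputable def machine (c : Prog) : FinTM2 where
  K := Stk
  k₀ := .inp
  k₁ := .out
  Γ := Ga
  Λ := Option (Cmd.seq c (.load fun _ => none)).Lab
  main := some (Cmd.seq c (.load fun _ => none)).entry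
  σ := Va
  initialState := none
  Γk₀Fin := inferInstanceAs (Fintype Bool)
  m
    | none => .halt
    | some l => (Cmd.seq c (.load fun _ => none)).tr some none l

theorem sz_bools (x : List Bool) : sz x ≤ 4 * x.length + 1 := by
  refine (sz_list_le (k := 3) fun a _ => sz_bool a).trans ?_
  omega

/-- From `PT` to Mathlib's notion. -/
theorem tm2_of_PT {β : Type} (eb : β → List Bool) (f : List Bool → β)
    (hf : PT fun x => eb (f x)) : 
    Nonempty (TM2ComputableInPolyTime (id : List Bool → List Bool) eb f) := by
  have hf' : PT fun x => (eb (f x)).reverse := PT.reverse hf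
  obtain ⟨q, hq⟩ := hf'.size
  obtain ⟨c, p, h⟩ := hf'
  let prog : Prog := .seq readInput (.seq c writeOutput)
  let T : Polynomial ℕ := (13 * Polynomial.X + 5) + (p.comp (4 * Polynomial.X + 1) +
    (8 * q.comp (4 * Polynomial.X + 1) + 3)) + 2
  have hT : ∀ n : ℕ, T.eval n = (13 * n + 5) + (p.eval (4 * n + 1) +
      (8 * q.eval (4 * n + 1) + 3)) + 2 := by
    intro n
    simp [T, Polynomial.eval_comp]
  have key : ∀ (x : List Bool),
      Nonempty (TM2OutputsInTime (machine prog) x (some (eb (f x))) (T.eval x.length)) := by
    intro x
    have a1 := does_readInput x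
    have a2 := h x []
    rw [List.append_nil, List.append_nil] at a2
    have a3 := does_writeOutput (eb (f x)).reverse
    rw [List.reverse_reverse, List.length_reverse] at a3
    obtain ⟨v, n, hn, hr⟩ := (a1.seq (a2.seq a3)) none
    have h1 := Cmd.Run.seq hr (Cmd.Run.load (fun _ => none) v _)
    have h2 := Cmd.tr_correct h1 (machine prog).m some none (fun _ => rfl)
    have h3 : Cmd.Steps (machine prog).m 1 ⟨some none, none, st [] [] [] [] [] (eb (f x))⟩
        ⟨none, none, st [] [] [] [] [] (eb (f x))⟩ := Cmd.Steps.one rfl
    have h4 := h2.trans h3
    have e1 : initList (machine prog) x = ⟨some (some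
        (Cmd.seq prog (.load fun _ => none)).entry), none, st x [] [] [] [] []⟩ := by
      unfold initList
      congr 1
      funext k
      cases k <;> rfl
    have e2 : haltList (machine prog) (eb (f x)) =
        ⟨none, none, st [] [] [] [] [] (eb (f x))⟩ := by
      unfold haltList
      congr 1
      funext k
      cases k <;> rfl
    refine ⟨⟨⟨n + 1 + 1, ?_⟩, ?_⟩⟩
    · exact (congrArg (fun c => (flip bind (machine prog).step)^[n + 1 + 1] (some c)) e1).trans
        (Eq.trans h4 (congrArg some e2.symm))
    · change n + 1 + 1 ≤ _
      rw [hT]
      have b1 : p.eval (sz x) ≤ p.eval (4 * x.length + 1) := eval_mono _ (sz_bools x)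
      have b2 : q.eval (sz x) ≤ q.eval (4 * x.length + 1) := eval_mono _ (sz_bools x)
      have b3 := (length_le_sz (eb (f x)).reverse).trans (hq x)
      rw [List.length_reverse] at b3
      omega
  refine ⟨{
    tm := machine prog
    inputAlphabet := Equiv.refl _
    outputAlphabet := Equiv.refl _
    time := T
    outputsFun := ?_ }⟩
  intro x
  have h' : ∀ (l : List Bool) (l' : List Bool), l = x → l' = eb (f x) →
      TM2OutputsInTime (machine prog) l (some l') (T.eval x.length) := by
    rintro _ _ rfl rfl
    exact Classical.choice (key _)
  exact h' (List.map (Equiv.refl Bool).invFun x) (List.map (Equiv.refl Bool).invFun (eb (f x)))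
    (by simp) (by simp)

end Pool.Agent.Lib.PolyFun
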