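import Pool.Agent.Lib.PolyFun.Stack

/-!
# Functions computable in polynomial time

`PT f` says that `f` is computed in polynomial time by a while program over stacks, with respect
to encodings by binary trees. This file contains the closure rules: composition, pairs, case
analysis and iteration along a list with results of polynomially bounded size.
-/

open Turing StateTransition

namespace Pool.Agent.Lib.PolyFun

open Pool.Agent.Lib.PolyTM

/-! ### Polynomially bounded functions -/

/-- Polynomially bounded functions. -/
def PolyBdd (f : ℕ → ℕ) : Prop := ∃ p : Polynomial ℕ, ∀ n, f n ≤ p.eval n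

theorem PolyBdd.mono {f g : ℕ → ℕ} (hg : PolyBdd g) (h : ∀ n, f n ≤ g n) : PolyBdd f := by
  obtain ⟨p, hp⟩ := hg
  exact ⟨p, fun n => (h n).trans (hp n)⟩

theorem PolyBdd.const (c : ℕ) : PolyBdd fun _ => c := ⟨Polynomial.C c, fun n => by simp⟩

theorem PolyBdd.id : PolyBdd fun n => n := ⟨Polynomial.X, fun n => by simp⟩

theorem PolyBdd.add {f g : ℕ → ℕ} (hf : PolyBdd f) (hg : PolyBdd g) :
    PolyBdd fun n => f n + g n := by
  obtain ⟨p, hp⟩ := hf
  obtain ⟨q, hq⟩ := hg
  exact ⟨p + q, fun n => by rw [Polynomial.eval_add]; exact Nat.add_le_add (hp n) (hq n)⟩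

theorem PolyBdd.mul {f g : ℕ → ℕ} (hf : PolyBdd f) (hg : PolyBdd g) :
    PolyBdd fun n => f n * g n := by
  obtain ⟨p, hp⟩ := hf
  obtain ⟨q, hq⟩ := hg
  exact ⟨p * q, fun n => by rw [Polynomial.eval_mul]; exact Nat.mul_le_mul (hp n) (hq n)⟩

theorem eval_mono (p : Polynomial ℕ) {a b : ℕ} (h : a ≤ b) : p.eval a ≤ p.eval b := by
  rw [Polynomial.eval_eq_sum, Polynomial.eval_eq_sum]
  exact Finset.sum_le_sum fun i _ => Nat.mul_le_mul_left _ (Nat.pow_le_pow_left h i)

theorem PolyBdd.eval (p : Polynomial ℕ) {f : ℕ → ℕ} (hf : PolyBdd f) :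
    PolyBdd fun n => p.eval (f n) := by
  obtain ⟨q, hq⟩ := hf
  refine ⟨p.comp q, fun n => ?_⟩
  rw [Polynomial.eval_comp]
  exact eval_mono p (hq n)

/-! ### Encodings -/

/-- Types with an encoding by binary trees. -/
class TEnc (α : Type) where
  /-- the encoding -/
  enc : α → Tr

variable {α β γ δ : Type} [TEnc α] [TEnc β] [TEnc γ] [TEnc δ]

/-- The code of an object. -/
def code (x : α) : List Bool := (TEnc.enc x).code

/-- The size of an object. -/
def sz (x : α) : ℕ := (code x).length

theorem one_le_sz (x : α) : 1 ≤ sz x := Tr.one_le_length _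

instance : TEnc Unit := ⟨fun _ => .nil⟩

instance : TEnc Bool := ⟨fun b => if b then .cons .nil .nil else .nil⟩

/-- The encoding of natural numbers. -/
def encNat : ℕ → Tr
  | 0 => .nil
  | n + 1 => .cons .nil (encNat n)

instance : TEnc ℕ := ⟨encNat⟩

instance : TEnc (α × β) := ⟨fun p => .cons (TEnc.enc p.1) (TEnc.enc p.2)⟩

/-- The encoding of lists. -/
def encList : List α → Tr
  | [] => .nil
  | a :: l => .cons (TEnc.enc a) (encList l)

instance : TEnc (List α) := ⟨encList⟩

instance : TEnc (Option α) := ⟨fun o => match o with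
  | none => .nil
  | some a => .cons (TEnc.enc a) .nil⟩

theorem code_pair (x : α) (y : β) : code (x, y) = true :: (code x ++ code y) := rfl

theorem code_cons (x : α) (l : List α) : code (x :: l) = true :: (code x ++ code l) := rfl

theorem code_nil : code ([] : List α) = [false] := rfl

theorem code_unit : code () = [false] := rfl

theorem code_false : code false = [false] := rfl

theorem code_true : code true = [true, false, false] := rfl

theorem code_none : code (none : Option α) = [false] := rfl

theorem code_some (x : α) : code (some x) = true :: (code x ++ [false]) := rfl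

theorem code_zero : code 0 = [false] := rfl

theorem code_succ (n : ℕ) : code (n + 1) = true :: false :: code n := rfl

theorem sz_pair (x : α) (y : β) : sz (x, y) = sz x + sz y + 1 := by
  unfold sz; rw [code_pair, List.length_cons, List.length_append]

theorem sz_cons (x : α) (l : List α) : sz (x :: l) = sz x + sz l + 1 := by
  unfold sz; rw [code_cons, List.length_cons, List.length_append]

theorem sz_nil : sz ([] : List α) = 1 := rfl

theorem sz_unit (x : Unit) : sz x = 1 := rfl

theorem sz_bool (x : Bool) : sz x ≤ 3 := by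
  cases x <;> simp [sz, code_true, code_false]

theorem sz_none : sz (none : Option α) = 1 := rfl

theorem sz_some (x : α) : sz (some x) = sz x + 2 := by
  unfold sz; rw [code_some]; simp

theorem sz_nat (n : ℕ) : sz n = 2 * n + 1 := by
  induction n with
  | zero => rfl
  | succ n ih =>
    unfold sz at *
    rw [code_succ, List.length_cons, List.length_cons, ih]; ring

theorem length_le_sz (l : List α) : l.length ≤ sz l := by
  induction l with
  | nil => simp
  | cons a l ih => rw [sz_cons, List.length_cons]; omega

theorem sz_append (l₁ l₂ : List α) : sz (l₁ ++ l₂) + 1 = sz l₁ + sz l₂ := by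
  induction l₁ with
  | nil => rw [List.nil_append, sz_nil]; omega
  | cons a l ih => rw [List.cons_append, sz_cons, sz_cons]; omega

theorem sz_reverse (l : List α) : sz l.reverse = sz l := by
  induction l with
  | nil => rfl
  | cons a l ih =>
    have := sz_append l.reverse [a]
    rw [List.reverse_cons]
    rw [sz_cons a l]
    rw [sz_cons a [], sz_nil] at this
    omega

theorem sz_mem {a : α} {l : List α} (h : a ∈ l) : sz a ≤ sz l := by
  induction l with
  | nil => exact absurd h (by simp)
  | cons b l ih =>
    rw [sz_cons]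
    rcases List.mem_cons.1 h with h | h
    · subst h; omega
    · have := ih h; omega

theorem sz_list_le {l : List α} {k : ℕ} (h : ∀ a ∈ l, sz a ≤ k) :
    sz l ≤ l.length * (k + 1) + 1 := by
  induction l with
  | nil => simp [sz_nil]
  | cons a l ih =>
    have h1 := ih fun b hb => h b (List.mem_cons_of_mem _ hb)
    have h2 := h a List.mem_cons_self
    rw [sz_cons, List.length_cons, Nat.add_mul]
    omega

/-! ### Functions computable in polynomial time -/

/-- The function `f` is computable in polynomial time. -/
def PT (f : α → β) : Prop := ∃ (c : Prog) (p : Polynomial ℕ), ∀ x m,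
  Does c (M (code x ++ m)) (p.eval (sz x)) (M (code (f x) ++ m))

theorem run_length {c : Prog} {v v' : Va} {S S' : ∀ k, List (Ga k)} {n : ℕ}
    (h : Cmd.Run c v S n v' S') (k : Stk) : (S' k).length ≤ (S k).length + n := by
  induction h with
  | push k' f v S =>
    by_cases hk : k = k'
    · subst hk; simp
    · rw [Function.update_of_ne hk]; omega
  | peek => omega
  | pop k' f v S =>
    by_cases hk : k = k'
    · subst hk; simp; omega
    · rw [Function.update_of_ne hk]; omega
  | load => omega
  | seq _ _ h1 h2 => omega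
  | ite_true _ _ h1 => omega
  | ite_false _ _ h1 => omega
  | loop_false => omega
  | loop_true _ _ _ h1 h2 => omega

theorem PT.size {f : α → β} (hf : PT f) : ∃ q : Polynomial ℕ, ∀ x, sz (f x) ≤ q.eval (sz x) := by
  obtain ⟨c, p, h⟩ := hf
  refine ⟨p + Polynomial.X, fun x => ?_⟩
  obtain ⟨v', n, hn, hr⟩ := h x [] none
  have := run_length hr .main
  simp only [M, st_main, List.append_nil] at this
  rw [Polynomial.eval_add, Polynomial.eval_X]
  unfold sz at *
  omega

theorem PT.mk {f : α → β} (c : Prog) (T : ℕ → ℕ) (hT : PolyBdd T)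
    (h : ∀ x m, Does c (M (code x ++ m)) (T (sz x)) (M (code (f x) ++ m))) : PT f := by
  obtain ⟨p, hp⟩ := hT
  exact ⟨c, p, fun x m => (h x m).mono (hp _)⟩

theorem PT.congr {f g : α → β} (hf : PT f) (h : ∀ x, g x = f x) : PT g := by
  rw [show g = f from funext h]; exact hf

theorem PT.of_code {f : α → β} (h : ∀ x, code (f x) = code x) : PT f :=
  PT.mk skip (fun _ => 1) (by
      repeat' (first | exact PolyBdd.id | exact PolyBdd.const _ | apply PolyBdd.add |
        apply PolyBdd.mul | apply PolyBdd.eval)) fun x m => by rw [h]; exact does_skip _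

theorem PT.id : PT (fun x : α => x) := PT.of_code fun _ => rfl

theorem PT.comp {g : β → γ} {f : α → β} (hg : PT g) (hf : PT f) : PT fun x => g (f x) := by
  obtain ⟨q, hq⟩ := hf.size
  obtain ⟨c, p, h⟩ := hf
  obtain ⟨c', p', h'⟩ := hg
  refine PT.mk (.seq c c') (fun n => p.eval n + p'.eval (q.eval n)) (by
      repeat' (first | exact PolyBdd.id | exact PolyBdd.const _ | apply PolyBdd.add |
        apply PolyBdd.mul | apply PolyBdd.eval)) fun x m => ?_
  exact ((h x m).seq (h' (f x) m)).mono (Nat.add_le_add_left (eval_mono p' (hq x)) _)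

theorem PT.const (y : β) : PT (fun _ : α => y) := by
  refine PT.mk (.seq drop (pushList (code y))) (fun n => (7 * n + 3) + (sz y + 1)) (by
      repeat' (first | exact PolyBdd.id | exact PolyBdd.const _ | apply PolyBdd.add |
        apply PolyBdd.mul | apply PolyBdd.eval))
    fun x m => ?_
  exact (does_drop (TEnc.enc x) m).seq (does_pushList (code y) m)

theorem PT.pair {f : α → β} {g : α → γ} (hf : PT f) (hg : PT g) : PT fun x => (f x, g x) := by
  obtain ⟨q, hq⟩ := hg.size
  obtain ⟨c, p, h⟩ := hf
  obtain ⟨c', p', h'⟩ := hg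
  refine PT.mk (.seq dup (.seq c' (.seq swap (.seq c (push .main true)))))
    (fun n => (15 * n + 7) + (p'.eval n + ((11 * q.eval n + 11 * n + 10) + (p.eval n + 1))))
    (by
      repeat' (first | exact PolyBdd.id | exact PolyBdd.const _ | apply PolyBdd.add |
        apply PolyBdd.mul | apply PolyBdd.eval)) fun x m => ?_
  have h1 := does_dup (TEnc.enc x) m
  have h2 := h' x (code x ++ m)
  have h3 := does_swap (TEnc.enc (g x)) (TEnc.enc x) m
  have h4 := h x (code (g x) ++ m)
  have h5 := does_pushM true (code (f x) ++ (code (g x) ++ m))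
  have e : code (f x, g x) ++ m = true :: (code (f x) ++ (code (g x) ++ m)) := by
    rw [code_pair, List.cons_append, List.append_assoc]
  rw [e]
  refine (h1.seq (h2.seq (h3.seq (h4.seq h5)))).mono ?_
  have := hq x
  simp only [sz, code] at *
  omega

theorem PT.fst : PT (Prod.fst : α × β → α) := by
  refine PT.mk (.seq (pop .main) nip) (fun n => 1 + (11 * n + 8)) (by
      repeat' (first | exact PolyBdd.id | exact PolyBdd.const _ | apply PolyBdd.add |
        apply PolyBdd.mul | apply PolyBdd.eval)) fun x m => ?_
  have h1 := does_popM true (code x.1 ++ (code x.2 ++ m))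
  have h2 := does_nip (TEnc.enc x.1) (TEnc.enc x.2) m
  have e : code x ++ m = true :: (code x.1 ++ (code x.2 ++ m)) := by
    rw [show code x = code (x.1, x.2) from rfl, code_pair, List.cons_append, List.append_assoc]
  rw [e]
  refine (h1.seq h2).mono ?_
  have : sz x = _ := sz_pair x.1 x.2
  simp only [sz, code] at *
  omega

theorem PT.snd : PT (Prod.snd : α × β → β) := by
  refine PT.mk (.seq (pop .main) drop) (fun n => 1 + (7 * n + 3)) (by
      repeat' (first | exact PolyBdd.id | exact PolyBdd.const _ | apply PolyBdd.add |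
        apply PolyBdd.mul | apply PolyBdd.eval)) fun x m => ?_
  have h1 := does_popM true (code x.1 ++ (code x.2 ++ m))
  have h2 := does_drop (TEnc.enc x.1) (code x.2 ++ m)
  have e : code x ++ m = true :: (code x.1 ++ (code x.2 ++ m)) := by
    rw [show code x = code (x.1, x.2) from rfl, code_pair, List.cons_append, List.append_assoc]
  rw [e]
  refine (h1.seq h2).mono ?_
  have : sz x = _ := sz_pair x.1 x.2
  simp only [sz, code] at *
  omega

/-- Case analysis. -/
theorem PT.casesGen {h : α → δ} (hh : PT h) {f : α → γ} (hf : PT f) {ε : Type} [TEnc ε]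
    {g : α × ε → γ} (hg : PT g) (F : α → γ)
    (H : ∀ x, (code (h x) = [false] ∧ F x = f x) ∨
      ∃ u : ε, code (h x) = code u ∧ (code u).head? = some true ∧ F x = g (x, u)) : PT F := by
  obtain ⟨q, hq⟩ := hh.size
  obtain ⟨c, p, h1⟩ := hh
  obtain ⟨c', p', h2⟩ := hf
  obtain ⟨c'', p'', h3⟩ := hg
  refine PT.mk (.seq dup (.seq c (ifTop .main (fun v => v.getD false)
    (.seq swap (.seq (push .main true) c'')) (.seq (pop .main) c'))))
    (fun n => (15 * n + 7) + (p.eval n + ((11 * q.eval n + 11 * n + 10) +
      (1 + p''.eval (n + q.eval n + 1)) + (1 + p'.eval n) + 2))) (by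
      repeat' (first | exact PolyBdd.id | exact PolyBdd.const _ | apply PolyBdd.add |
        apply PolyBdd.mul | apply PolyBdd.eval)) fun x m => ?_
  have a1 := does_dup (TEnc.enc x) m
  have a2 := h1 x (code x ++ m)
  rcases H x with ⟨e1, e2⟩ | ⟨u, e1, e2, e3⟩
  · rw [e1] at a2
    have a3 := does_popM false (code x ++ m)
    have a4 := h2 x m
    rw [e2]
    have a5 := does_ifTop_false (x := .main) (P := fun v => v.getD false)
      (c₁ := .seq swap (.seq (push .main true) c'')) (S := M (false :: (code x ++ m))) rfl
      (a3.seq a4)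
    refine (a1.seq (a2.seq a5)).mono ?_
    simp only [sz, code] at *
    omega
  · rw [e1] at a2
    have a3 := does_swap (TEnc.enc u) (TEnc.enc x) m
    have a4 := does_pushM true (code x ++ (code u ++ m))
    have a5 := h3 (x, u) m
    have e : code (x, u) ++ m = true :: (code x ++ (code u ++ m)) := by
      rw [code_pair, List.cons_append, List.append_assoc]
    rw [e] at a5
    rw [e3]
    have a6 := does_ifTop_true (x := .main) (P := fun v => v.getD false)
      (c₂ := .seq (pop .main) c') (S := M (code u ++ (code x ++ m))) (by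
        simp only [M, st_main]
        cases hu : code u with
        | nil => rw [hu] at e2; simp at e2
        | cons s l => rw [hu] at e2; simp at e2; simp [e2])
      (a3.seq (a4.seq a5))
    refine (a1.seq (a2.seq a6)).mono ?_
    have b1 := hq x
    have b2 : sz (h x) = sz u := congrArg List.length e1
    have b3 : p''.eval (sz (x, u)) ≤ p''.eval (sz x + q.eval (sz x) + 1) :=
      eval_mono _ (by rw [sz_pair]; omega)
    simp only [sz, code] at *
    omega

/-- Iteration along a list. -/
theorem PT.foldl {l : α → List β} (hl : PT l) {i : α → γ} (hi : PT i)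
    {g : (α × γ) × β → γ} (hg : PT g) (hb : ∃ q : Polynomial ℕ, ∀ x l₁ l₂, l x = l₁ ++ l₂ →
      sz (l₁.foldl (fun c b => g ((x, c), b)) (i x)) ≤ q.eval (sz x)) :
    PT fun x => (l x).foldl (fun c b => g ((x, c), b)) (i x) := by
  obtain ⟨q, hq⟩ := hb
  obtain ⟨r, hr⟩ := hl.size
  have hG : PT (fun s : (β × List β) × (α × γ) => (s.1.2, (s.2.1, g ((s.2.1, s.2.2), s.1.1)))) :=
    (PT.snd.comp PT.fst).pair ((PT.fst.comp PT.snd).pair
      (hg.comp (((PT.fst.comp PT.snd).pair (PT.snd.comp PT.snd)).pair (PT.fst.comp PT.fst))))
  have h0 : PT fun x => (l x, (x, i x)) := hl.pair (PT.id.pair hi)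
  obtain ⟨cG, pG, hG⟩ := hG
  obtain ⟨c0, p0, h0⟩ := h0
  obtain ⟨c1, p1, h1⟩ := (PT.snd : PT (Prod.snd : α × γ → γ))
  let C : ℕ → ℕ := fun n => pG.eval (r.eval n + n + q.eval n + 2) + 4
  refine PT.mk (.seq c0 (.seq (pop .main) (.seq (whileTop .main (fun v => v.getD false)
    (.seq (push .main true) (.seq cG (pop .main)))) (.seq (pop .main) c1))))
    (fun n => p0.eval n + (1 + ((r.eval n * C n + 2) + (1 + p1.eval (n + q.eval n + 1)))))
    (by
      simp only [C]
      repeat' (first | exact PolyBdd.id | exact PolyBdd.const _ | apply PolyBdd.add |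
        apply PolyBdd.mul | apply PolyBdd.eval)) fun x m => ?_
  have a0 := h0 x m
  have e0 : code (l x, (x, i x)) ++ m = true :: (code (l x) ++ (code (x, i x) ++ m)) := by
    rw [code_pair, List.cons_append, List.append_assoc]
  rw [e0] at a0
  have a1 := does_popM true (code (l x) ++ (code (x, i x) ++ m))
  -- the loop
  have key : ∀ l₂ l₁ : List β, l x = l₁ ++ l₂ →
      Rch .main (fun v => v.getD false) (.seq (push .main true) (.seq cG (pop .main)))
        (M (code l₂ ++ (code (x, l₁.foldl (fun c b => g ((x, c), b)) (i x)) ++ m)))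
        (l₂.length * C (sz x))
        (M (code ([] : List β) ++ (code (x, (l x).foldl (fun c b => g ((x, c), b)) (i x)) ++ m)))
      := by
    intro l₂
    induction l₂ with
    | nil =>
      intro l₁ e
      rw [List.append_nil] at e
      rw [← e]
      exact (Rch.refl _).mono (Nat.zero_le _)
    | cons b l₂ ih =>
      intro l₁ e
      have ih' := ih (l₁ ++ [b]) (by rw [e]; simp)
      rw [List.foldl_append] at ih'
      simp only [List.foldl_cons, List.foldl_nil] at ih'
      set acc := l₁.foldl (fun c b => g ((x, c), b)) (i x) with hacc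
      have b1 := does_pushM true (code (b :: l₂) ++ (code (x, acc) ++ m))
      have b2 := hG ((b, l₂), (x, acc)) m
      have e2 : code ((b, l₂), (x, acc)) ++ m =
          true :: (code (b :: l₂) ++ (code (x, acc) ++ m)) := by
        rw [code_pair, List.cons_append, List.append_assoc]; rfl
      rw [e2] at b2
      simp only at b2
      have e3 : code (l₂, (x, g ((x, acc), b))) ++ m =
          true :: (code l₂ ++ (code (x, g ((x, acc), b)) ++ m)) := by
        rw [code_pair, List.cons_append, List.append_assoc]
      rw [e3] at b2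
      have b3 := does_popM true (code l₂ ++ (code (x, g ((x, acc), b)) ++ m))
      have b4 := Rch.step (x := .main) (P := fun v => v.getD false)
        (S := M (code (b :: l₂) ++ (code (x, acc) ++ m)))
        (c := .seq (push .main true) (.seq cG (pop .main))) rfl (b1.seq (b2.seq b3))
      refine (b4.trans ih').mono ?_
      have c1 := hq x l₁ (b :: l₂) e
      rw [← hacc] at c1
      have c2 := hr x
      rw [e] at c2
      have c3 := sz_append l₁ (b :: l₂)
      have c4 := one_le_sz l₁
      have c5 : pG.eval (sz ((b, l₂), (x, acc))) ≤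
          pG.eval (r.eval (sz x) + sz x + q.eval (sz x) + 2) := by
        refine eval_mono _ ?_
        rw [sz_pair, sz_pair, sz_pair]
        rw [sz_cons] at c3
        omega
      rw [List.length_cons, Nat.add_mul, Nat.one_mul]
      simp only [C]
      omega
  have a2 := (key (l x) [] rfl).finish rfl
  simp only [List.foldl_nil] at a2
  have a3 := does_popM false (code (x, (l x).foldl (fun c b => g ((x, c), b)) (i x)) ++ m)
  have a4 := h1 (x, (l x).foldl (fun c b => g ((x, c), b)) (i x)) m
  refine (a0.seq (a1.seq (a2.seq (a3.seq a4)))).mono ?_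
  have d1 : (l x).length ≤ r.eval (sz x) := (length_le_sz _).trans (hr x)
  have d2 := Nat.mul_le_mul_right (C (sz x)) d1
  have d3 := hq x (l x) [] (by simp)
  have d4 : p1.eval (sz (x, (l x).foldl (fun c b => g ((x, c), b)) (i x))) ≤
      p1.eval (sz x + q.eval (sz x) + 1) := eval_mono _ (by rw [sz_pair]; omega)
  omega

end Pool.Agent.Lib.PolyFun
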