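import Pool.Agent.Lib.PolyFun.Basic

/-!
# Functions on lists, numbers and Booleans computable in polynomial time
-/

namespace Pool.Agent.Lib.PolyFun

variable {α β γ δ : Type} [TEnc α] [TEnc β] [TEnc γ] [TEnc δ]

/-! ### Polynomial bounds in the size of the argument -/

/-- `F` is bounded by a polynomial in the size of the argument. -/
def PBd (F : α → ℕ) : Prop := ∃ q : Polynomial ℕ, ∀ x, F x ≤ q.eval (sz x)

theorem PBd.mono {F G : α → ℕ} (hG : PBd G) (h : ∀ x, F x ≤ G x) : PBd F := by
  obtain ⟨q, hq⟩ := hG
  exact ⟨q, fun x => (h x).trans (hq x)⟩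

theorem PBd.const (k : ℕ) : PBd (fun _ : α => k) := ⟨Polynomial.C k, fun x => by simp⟩

theorem PBd.sz : PBd (fun x : α => sz x) := ⟨Polynomial.X, fun x => by simp⟩

theorem PBd.add {F G : α → ℕ} (hF : PBd F) (hG : PBd G) : PBd fun x => F x + G x := by
  obtain ⟨p, hp⟩ := hF
  obtain ⟨q, hq⟩ := hG
  exact ⟨p + q, fun n => by rw [Polynomial.eval_add]; exact Nat.add_le_add (hp n) (hq n)⟩

theorem PBd.mul {F G : α → ℕ} (hF : PBd F) (hG : PBd G) : PBd fun x => F x * G x := by
  obtain ⟨p, hp⟩ := hF
  obtain ⟨q, hq⟩ := hG
  exact ⟨p * q, fun n => by rw [Polynomial.eval_mul]; exact Nat.mul_le_mul (hp n) (hq n)⟩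

theorem PBd.eval (p : Polynomial ℕ) {F : α → ℕ} (hF : PBd F) : PBd fun x => p.eval (F x) := by
  obtain ⟨q, hq⟩ := hF
  refine ⟨p.comp q, fun n => ?_⟩
  rw [Polynomial.eval_comp]
  exact eval_mono p (hq n)

theorem PBd.of {f : α → β} (hf : PT f) : PBd fun x => PolyFun.sz (f x) := hf.size

theorem PT.foldl' {l : α → List β} (hl : PT l) {i : α → γ} (hi : PT i)
    {g : (α × γ) × β → γ} (hg : PT g) {B : α → ℕ} (hB : PBd B)
    (hb : ∀ x l₁ l₂, l x = l₁ ++ l₂ → sz (l₁.foldl (fun c b => g ((x, c), b)) (i x)) ≤ B x) :
    PT fun x => (l x).foldl (fun c b => g ((x, c), b)) (i x) := by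
  obtain ⟨q, hq⟩ := hB
  exact PT.foldl hl hi hg ⟨q, fun x l₁ l₂ e => (hb x l₁ l₂ e).trans (hq x)⟩

/-! ### Case analysis -/

theorem PT.cond {c : α → Bool} (hc : PT c) {f g : α → γ} (hf : PT f) (hg : PT g) :
    PT fun x => if c x then f x else g x := by
  refine PT.casesGen hc hg (hf.comp (PT.fst : PT (Prod.fst : α × Bool → α))) _ fun x => ?_
  cases h : c x
  · exact Or.inl ⟨code_false, by simp⟩
  · exact Or.inr ⟨true, rfl, rfl, by simp⟩

theorem PT.boolCases {c : α → Bool} (hc : PT c) {f g : α → γ} (hf : PT f) (hg : PT g)
    {F : α → γ} (h1 : ∀ x, c x = true → F x = f x) (h2 : ∀ x, c x = false → F x = g x) :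
    PT F := (PT.cond hc hf hg).congr fun x => by
  cases h : c x
  · simp [h2 x h]
  · simp [h1 x h]

theorem PT.natCases {n : α → ℕ} (hn : PT n) {f : α → γ} (hf : PT f) {g : α × ℕ → γ} (hg : PT g)
    {F : α → γ} (h0 : ∀ x, n x = 0 → F x = f x) (h1 : ∀ x k, n x = k + 1 → F x = g (x, k)) :
    PT F := by
  refine PT.casesGen hn hf (hg.comp ((PT.fst : PT (Prod.fst : α × (Unit × ℕ) → α)).pair
    (PT.snd.comp PT.snd))) _ fun x => ?_
  cases h : n x with
  | zero => exact Or.inl ⟨code_zero, h0 x h⟩
  | succ k => exact Or.inr ⟨((), k), rfl, rfl, h1 x k h⟩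

theorem PT.listCases {l : α → List β} (hl : PT l) {f : α → γ} (hf : PT f)
    {g : α × (β × List β) → γ} (hg : PT g)
    {F : α → γ} (h0 : ∀ x, l x = [] → F x = f x)
    (h1 : ∀ x b t, l x = b :: t → F x = g (x, (b, t))) : PT F := by
  refine PT.casesGen hl hf hg _ fun x => ?_
  cases h : l x with
  | nil => exact Or.inl ⟨code_nil, h0 x h⟩
  | cons b t => exact Or.inr ⟨(b, t), rfl, rfl, h1 x b t h⟩

theorem PT.optCases {o : α → Option β} (ho : PT o) {f : α → γ} (hf : PT f)
    {g : α × β → γ} (hg : PT g)
    {F : α → γ} (h0 : ∀ x, o x = none → F x = f x)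
    (h1 : ∀ x b, o x = some b → F x = g (x, b)) : PT F := by
  refine PT.casesGen ho hf (hg.comp ((PT.fst : PT (Prod.fst : α × (β × Unit) → α)).pair
    (PT.fst.comp PT.snd))) _ fun x => ?_
  cases h : o x with
  | none => exact Or.inl ⟨code_none, h0 x h⟩
  | some b => exact Or.inr ⟨(b, ()), rfl, rfl, h1 x b h⟩

/-! ### Constructors -/

theorem PT.cons' : PT fun p : α × List α => p.1 :: p.2 := PT.of_code fun _ => rfl

theorem PT.cons {f : α → β} {g : α → List β} (hf : PT f) (hg : PT g) :
    PT fun x => f x :: g x := PT.cons'.comp (hf.pair hg)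

theorem PT.succ' : PT fun n : ℕ => n + 1 := by
  have h : PT fun p : Unit × ℕ => p.2 + 1 := PT.of_code fun _ => rfl
  exact h.comp ((PT.const ()).pair PT.id)

theorem PT.succ {f : α → ℕ} (hf : PT f) : PT fun x => f x + 1 := PT.succ'.comp hf

theorem PT.some' : PT fun x : α => some x := by
  have h : PT fun p : α × Unit => some p.1 := PT.of_code fun _ => rfl
  exact h.comp (PT.id.pair (PT.const ()))

theorem PT.some {f : α → β} (hf : PT f) : PT fun x => some (f x) := PT.some'.comp hf

/-! ### Lists -/

omit [TEnc β] [TEnc γ] in
theorem foldl_cons_eq (f : β → γ) (l : List β) (acc : List γ) :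
    l.foldl (fun c b => f b :: c) acc = (l.map f).reverse ++ acc := by
  induction l generalizing acc with
  | nil => rfl
  | cons b l ih => rw [List.foldl_cons, ih]; simp

theorem sz_prefix_le {l l₁ l₂ : List β} (h : l = l₁ ++ l₂) : sz l₁ ≤ sz l := by
  have := sz_append l₁ l₂
  have := one_le_sz l₂
  rw [h]; omega

theorem PT.reverse' : PT fun l : List α => l.reverse := by
  have h : PT fun l : List α => l.foldl (fun c b => b :: c) [] :=
    PT.foldl' (α := List α) (β := α) (γ := List α) (l := fun l => l) (i := fun _ => [])
      (g := fun s => s.2 :: s.1.2) PT.id (PT.const _) (PT.cons PT.snd (PT.snd.comp PT.fst))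
      PBd.sz (fun x l₁ l₂ e => by
        have := foldl_cons_eq (fun b : α => b) l₁ []
        simp only [List.map_id', List.append_nil] at this
        simp only at this ⊢
        rw [this, sz_reverse]
        exact sz_prefix_le e)
  refine h.congr fun l => ?_
  have := foldl_cons_eq (fun b : α => b) l []
  simp only [List.map_id', List.append_nil] at this
  exact this.symm

theorem PT.reverse {f : α → List β} (hf : PT f) : PT fun x => (f x).reverse :=
  PT.reverse'.comp hf

theorem PT.map {l : α → List β} (hl : PT l) {g : α × β → γ} (hg : PT g) :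
    PT fun x => (l x).map fun b => g (x, b) := by
  obtain ⟨q, hq⟩ := hg.size
  have h : PT fun x => (l x).foldl (fun c b => g (x, b) :: c) [] :=
    PT.foldl' (α := α) (β := β) (γ := List γ) (l := l) (i := fun _ => [])
      (g := fun s => g (s.1.1, s.2) :: s.1.2) hl (PT.const _)
      (PT.cons (hg.comp ((PT.fst.comp PT.fst).pair PT.snd)) (PT.snd.comp PT.fst))
      (B := fun x => sz (l x) * (q.eval (sz x + sz (l x) + 1) + 1) + 1)
      (((PBd.of hl).mul ((PBd.eval q ((PBd.sz.add (PBd.of hl)).add (PBd.const 1))).add
        (PBd.const 1))).add (PBd.const 1))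
      (fun x l₁ l₂ e => by
        have := foldl_cons_eq (fun b : β => g (x, b)) l₁ []
        simp only [List.append_nil] at this
        simp only at this ⊢
        rw [this, sz_reverse]
        refine (sz_list_le (k := q.eval (sz x + sz (l x) + 1)) ?_).trans ?_
        · intro a ha
          obtain ⟨b, hb, rfl⟩ := List.mem_map.1 ha
          refine (hq _).trans (eval_mono _ ?_)
          rw [sz_pair]
          have := sz_mem (l := l x) (a := b) (by rw [e]; exact List.mem_append_left _ hb)
          omega
        · rw [List.length_map]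
          have h1 := (length_le_sz l₁).trans (sz_prefix_le e)
          have h2 := Nat.mul_le_mul_right (q.eval (sz x + sz (l x) + 1) + 1) h1
          omega)
  refine (PT.reverse h).congr fun x => ?_
  have := foldl_cons_eq (fun b : β => g (x, b)) (l x) []
  rw [this]
  simp

theorem PT.append {f g : α → List β} (hf : PT f) (hg : PT g) : PT fun x => f x ++ g x := by
  have h : PT fun x => ((f x).reverse).foldl (fun c b => b :: c) (g x) :=
    PT.foldl' (α := α) (β := β) (γ := List β) (l := fun x => (f x).reverse) (i := g)
      (g := fun s => s.2 :: s.1.2) (PT.reverse hf) hg (PT.cons PT.snd (PT.snd.comp PT.fst))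
      (B := fun x => sz (f x) + sz (g x)) ((PBd.of hf).add (PBd.of hg)) (fun x l₁ l₂ e => by
        have := foldl_cons_eq (fun b : β => b) l₁ (g x)
        simp only [List.map_id'] at this
        simp only at this ⊢
        rw [this]
        have h1 := sz_append l₁.reverse (g x)
        rw [sz_reverse] at h1
        have h2 := sz_prefix_le e
        rw [sz_reverse] at h2
        omega)
  refine h.congr fun x => ?_
  have := foldl_cons_eq (fun b : β => b) (f x).reverse (g x)
  simp only [List.map_id', List.reverse_reverse] at this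
  exact this.symm

theorem PT.tail {f : α → List β} (hf : PT f) : PT fun x => (f x).tail :=
  PT.listCases hf (f := fun _ => []) (PT.const _) (g := fun p => p.2.2) (PT.snd.comp PT.snd)
    (fun x h => by simp [h]) (fun x b t h => by simp [h])

theorem PT.head? {f : α → List β} (hf : PT f) : PT fun x => (f x).head? :=
  PT.listCases hf (f := fun _ => none) (PT.const _) (g := fun p => Option.some p.2.1)
    (PT.some (PT.fst.comp PT.snd)) (fun x h => by simp [h]) (fun x b t h => by simp [h])

theorem PT.getD' {o : α → Option β} (ho : PT o) {d : α → β} (hd : PT d) :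
    PT fun x => (o x).getD (d x) :=
  PT.optCases ho hd (g := fun p => p.2) PT.snd (fun x h => by simp [h])
    (fun x b h => by simp [h])

/-! ### Numbers -/

/-- A number as a list of units. -/
def units (n : ℕ) : List Unit := List.replicate n ()

theorem PT.units {f : α → ℕ} (hf : PT f) : PT fun x => units (f x) := by
  have h : PT fun n : ℕ => PolyFun.units n := PT.of_code fun n => by
    induction n with
    | zero => rfl
    | succ n ih =>
      have : PolyFun.units (n + 1) = () :: PolyFun.units n := rfl
      rw [this, code_cons, ih]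
      rfl
  exact h.comp hf

theorem length_prefix {n : ℕ} {l₁ l₂ : List Unit} (h : units n = l₁ ++ l₂) : l₁.length ≤ n := by
  have := congrArg List.length h
  rw [units, List.length_replicate, List.length_append] at this
  omega

theorem foldl_length {σ : Type} (f : σ → σ) (l : List Unit) (a : σ) :
    l.foldl (fun c _ => f c) a = f^[l.length] a := by
  induction l generalizing a with
  | nil => rfl
  | cons b l ih => rw [List.foldl_cons, ih, List.length_cons, Function.iterate_succ_apply]

theorem length_units (n : ℕ) : (units n).length = n := List.length_replicate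

/-- Iteration. -/
theorem PT.iterate {n : α → ℕ} (hn : PT n) {i : α → γ} (hi : PT i) {g : α × γ → γ} (hg : PT g)
    {B : α → ℕ} (hB : PBd B) (hb : ∀ x k, k ≤ n x → sz ((fun c => g (x, c))^[k] (i x)) ≤ B x) :
    PT fun x => (fun c => g (x, c))^[n x] (i x) := by
  have h := PT.foldl' (α := α) (β := Unit) (γ := γ) (l := fun x => PolyFun.units (n x)) (i := i)
    (g := fun s => g s.1) (PT.units hn) hi (hg.comp PT.fst) hB (fun x l₁ l₂ e => by
      have := foldl_length (fun c => g (x, c)) l₁ (i x)
      simp only at this ⊢
      rw [this]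
      exact hb x _ (length_prefix e))
  refine h.congr fun x => ?_
  have := foldl_length (fun c => g (x, c)) (PolyFun.units (n x)) (i x)
  rw [length_units] at this
  exact this.symm

theorem PT.add {f g : α → ℕ} (hf : PT f) (hg : PT g) : PT fun x => f x + g x := by
  have e : ∀ m k : ℕ, (fun c : ℕ => c + 1)^[k] m = m + k := by
    intro m k
    induction k with
    | zero => rfl
    | succ k ih => rw [Function.iterate_succ_apply', ih]; ring
  have h : PT fun x => (fun c : ℕ => c + 1)^[g x] (f x) :=
    PT.iterate (γ := ℕ) hg hf (g := fun s => s.2 + 1) (PT.succ PT.snd)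
      (B := fun x => sz (f x) + sz (g x)) ((PBd.of hf).add (PBd.of hg)) (fun x k hk => by
        simp only
        rw [e, sz_nat, sz_nat, sz_nat]; omega)
  exact h.congr fun x => (e _ _).symm

theorem PT.pred {f : α → ℕ} (hf : PT f) : PT fun x => f x - 1 :=
  PT.natCases hf (f := fun _ => 0) (PT.const _) (g := fun p => p.2) PT.snd
    (fun x h => by simp [h]) (fun x k h => by simp [h])

theorem PT.sub {f g : α → ℕ} (hf : PT f) (hg : PT g) : PT fun x => f x - g x := by
  have e : ∀ m k : ℕ, (fun c : ℕ => c - 1)^[k] m = m - k := by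
    intro m k
    induction k with
    | zero => rfl
    | succ k ih => rw [Function.iterate_succ_apply', ih]; omega
  have h : PT fun x => (fun c : ℕ => c - 1)^[g x] (f x) :=
    PT.iterate (γ := ℕ) hg hf (g := fun s => s.2 - 1) (PT.pred PT.snd)
      (B := fun x => sz (f x)) (PBd.of hf) (fun x k hk => by
        simp only
        rw [e, sz_nat, sz_nat]; omega)
  exact h.congr fun x => (e _ _).symm

theorem PT.isZero {f : α → ℕ} (hf : PT f) : PT fun x => decide (f x = 0) :=
  PT.natCases hf (f := fun _ => true) (PT.const _) (g := fun _ => false) (PT.const _)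
    (fun x h => by simp [h]) (fun x k h => by simp [h])

theorem PT.le {f g : α → ℕ} (hf : PT f) (hg : PT g) : PT fun x => decide (f x ≤ g x) :=
  (PT.isZero (PT.sub hf hg)).congr fun x => by
    rw [decide_eq_decide]; omega

theorem PT.lt {f g : α → ℕ} (hf : PT f) (hg : PT g) : PT fun x => decide (f x < g x) :=
  (PT.le (PT.succ hf) hg).congr fun x => rfl

/-! ### Booleans -/

theorem PT.not {f : α → Bool} (hf : PT f) : PT fun x => !f x :=
  PT.boolCases hf (f := fun _ => false) (PT.const _) (g := fun _ => true) (PT.const _)
    (fun x h => by simp [h]) (fun x h => by simp [h])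

theorem PT.and {f g : α → Bool} (hf : PT f) (hg : PT g) : PT fun x => f x && g x :=
  PT.boolCases hf hg (g := fun _ => false) (PT.const _)
    (fun x h => by simp [h]) (fun x h => by simp [h])

theorem PT.or {f g : α → Bool} (hf : PT f) (hg : PT g) : PT fun x => f x || g x :=
  PT.boolCases hf (f := fun _ => true) (PT.const _) hg
    (fun x h => by simp [h]) (fun x h => by simp [h])

theorem PT.beq {f g : α → Bool} (hf : PT f) (hg : PT g) : PT fun x => f x == g x :=
  PT.boolCases hf hg (PT.not hg)
    (fun x h => by simp [h]) (fun x h => by simp [h])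

theorem PT.natEq {f g : α → ℕ} (hf : PT f) (hg : PT g) : PT fun x => decide (f x = g x) :=
  (PT.and (PT.le hf hg) (PT.le hg hf)).congr fun x => by
    rw [← Bool.decide_and, decide_eq_decide]; omega

/-- Conditional on a decidable proposition. -/
theorem PT.ite {P : α → Prop} [DecidablePred P] (hP : PT fun x => decide (P x)) {f g : α → γ}
    (hf : PT f) (hg : PT g) : PT fun x => if P x then f x else g x :=
  (PT.cond hP hf hg).congr fun x => by simp

theorem PT.mul {f g : α → ℕ} (hf : PT f) (hg : PT g) : PT fun x => f x * g x := by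
  have e : ∀ a k : ℕ, (fun c : ℕ => c + a)^[k] 0 = a * k := by
    intro a k
    induction k with
    | zero => rfl
    | succ k ih => rw [Function.iterate_succ_apply', ih]; ring
  have h : PT fun x => (fun c : ℕ => c + f x)^[g x] 0 :=
    PT.iterate (γ := ℕ) hg (i := fun _ => 0) (PT.const _) (g := fun s => s.2 + f s.1)
      (PT.add PT.snd (hf.comp PT.fst))
      (B := fun x => 2 * (sz (f x) * sz (g x)) + 1)
      (((PBd.const 2).mul ((PBd.of hf).mul (PBd.of hg))).add (PBd.const 1)) (fun x k hk => by
        simp only
        rw [e, sz_nat, sz_nat, sz_nat]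
        have := Nat.mul_le_mul (show f x ≤ 2 * f x + 1 by omega) (show k ≤ 2 * g x + 1 by omega)
        omega)
  exact h.congr fun x => (e _ _).symm

/-- Parity. -/
theorem PT.odd {f : α → ℕ} (hf : PT f) : PT fun x => f x % 2 == 1 := by
  have e : ∀ k : ℕ, (fun c : Bool => !c)^[k] false = (k % 2 == 1) := by
    intro k
    induction k with
    | zero => rfl
    | succ k ih =>
      rw [Function.iterate_succ_apply', ih]
      rcases Nat.mod_two_eq_zero_or_one k with h | h
      · have : (k + 1) % 2 = 1 := by omega
        simp [h, this]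
      · have : (k + 1) % 2 = 0 := by omega
        simp [h, this]
  have h : PT fun x => (fun c : Bool => !c)^[f x] false :=
    PT.iterate (γ := Bool) hf (i := fun _ => false) (PT.const _) (g := fun s => !s.2)
      (PT.not PT.snd) (B := fun _ => 3) (PBd.const 3) (fun x k hk => sz_bool _)
  exact h.congr fun x => (e _).symm

/-! ### Lists and numbers -/

theorem PT.length {f : α → List β} (hf : PT f) : PT fun x => (f x).length := by
  have e : ∀ (l : List β) (k : ℕ), l.foldl (fun c _ => c + 1) k = k + l.length := by
    intro l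
    induction l with
    | nil => intro k; rfl
    | cons b l ih => intro k; rw [List.foldl_cons, ih, List.length_cons]; ring
  have h : PT fun x => (f x).foldl (fun c _ => c + 1) 0 :=
    PT.foldl' (γ := ℕ) hf (i := fun _ => 0) (PT.const _) (g := fun s => s.1.2 + 1)
      (PT.succ (PT.snd.comp PT.fst)) (B := fun x => 2 * sz (f x) + 1)
      (((PBd.const 2).mul (PBd.of hf)).add (PBd.const 1)) (fun x l₁ l₂ h => by
        simp only
        rw [e, sz_nat]
        have := length_le_sz l₁
        have := sz_prefix_le h
        omega)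
  exact h.congr fun x => by rw [e, Nat.zero_add]

theorem range_fold (k : ℕ) : (fun c : List ℕ => c ++ [c.length])^[k] [] = List.range k := by
  induction k with
  | zero => rfl
  | succ k ih => rw [Function.iterate_succ_apply', ih, List.range_succ, List.length_range]

theorem sz_range_le {k n : ℕ} (h : k ≤ n) : sz (List.range k) ≤ n * (2 * n + 2) + 1 := by
  refine (sz_list_le (k := 2 * n + 1) ?_).trans ?_
  · intro a ha
    rw [List.mem_range] at ha
    rw [sz_nat]; omega
  · rw [List.length_range]
    exact Nat.add_le_add_right (Nat.mul_le_mul_right (2 * n + 2) h) 1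

theorem PT.range {f : α → ℕ} (hf : PT f) : PT fun x => List.range (f x) := by
  have h : PT fun x => (fun c : List ℕ => c ++ [c.length])^[f x] [] :=
    PT.iterate (γ := List ℕ) hf (i := fun _ => []) (PT.const _)
      (g := fun s => s.2 ++ [s.2.length])
      (PT.append PT.snd (PT.cons (PT.length PT.snd) (PT.const _)))
      (B := fun x => sz (f x) * (2 * sz (f x) + 2) + 1)
      (((PBd.of hf).mul (((PBd.const 2).mul (PBd.of hf)).add (PBd.const 2))).add (PBd.const 1))
      (fun x k hk => by
        simp only
        rw [range_fold]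
        exact sz_range_le (by rw [sz_nat]; omega))
  exact h.congr fun x => (range_fold _).symm

theorem PT.drop {n : α → ℕ} (hn : PT n) {f : α → List β} (hf : PT f) :
    PT fun x => (f x).drop (n x) := by
  have e : ∀ (l : List β) (k : ℕ), (fun c : List β => c.tail)^[k] l = l.drop k := by
    intro l k
    induction k with
    | zero => rfl
    | succ k ih => rw [Function.iterate_succ_apply', ih]; simp
  have h : PT fun x => (fun c : List β => c.tail)^[n x] (f x) :=
    PT.iterate (γ := List β) hn hf (g := fun s => s.2.tail) (PT.tail PT.snd)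
      (B := fun x => sz (f x)) (PBd.of hf) (fun x k hk => by
        simp only
        rw [e]
        have h1 := sz_append ((f x).take k) ((f x).drop k)
        rw [List.take_append_drop] at h1
        have := one_le_sz ((f x).take k)
        omega)
  exact h.congr fun x => (e _ _).symm

theorem PT.getElem? {n : α → ℕ} (hn : PT n) {f : α → List β} (hf : PT f) :
    PT fun x => (f x)[n x]? :=
  (PT.head? (PT.drop hn hf)).congr fun x => by rw [List.head?_drop]

theorem PT.getD {n : α → ℕ} (hn : PT n) {f : α → List β} (hf : PT f) {d : α → β} (hd : PT d) :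
    PT fun x => (f x).getD (n x) (d x) :=
  (PT.getD' (PT.getElem? hn hf) hd).congr fun x => by rw [List.getD_eq_getElem?_getD]

omit [TEnc β] [TEnc γ] in
theorem foldl_append_eq (f : β → List γ) (l : List β) (acc : List γ) :
    l.foldl (fun c b => c ++ f b) acc = acc ++ l.flatMap f := by
  induction l generalizing acc with
  | nil => simp
  | cons b l ih => rw [List.foldl_cons, ih]; simp

omit [TEnc β] in
theorem sz_flatMap_le {f : β → List γ} {l : List β} {k : ℕ} (h : ∀ b ∈ l, sz (f b) ≤ k) :
    sz (l.flatMap f) ≤ l.length * k + 1 := by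
  induction l with
  | nil => simp [sz_nil]
  | cons b l ih =>
    have h1 := ih fun b hb => h b (List.mem_cons_of_mem _ hb)
    have h2 := h b List.mem_cons_self
    have h3 := sz_append (f b) (l.flatMap f)
    rw [List.flatMap_cons, List.length_cons, Nat.add_mul]
    omega

theorem PT.flatMap {l : α → List β} (hl : PT l) {g : α × β → List γ} (hg : PT g) :
    PT fun x => (l x).flatMap fun b => g (x, b) := by
  obtain ⟨q, hq⟩ := hg.size
  have h : PT fun x => (l x).foldl (fun c b => c ++ g (x, b)) [] :=
    PT.foldl' (α := α) (β := β) (γ := List γ) (l := l) (i := fun _ => [])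
      (g := fun s => s.1.2 ++ g (s.1.1, s.2)) hl (PT.const _)
      (PT.append (PT.snd.comp PT.fst) (hg.comp ((PT.fst.comp PT.fst).pair PT.snd)))
      (B := fun x => sz (l x) * q.eval (sz x + sz (l x) + 1) + 1)
      (((PBd.of hl).mul (PBd.eval q ((PBd.sz.add (PBd.of hl)).add (PBd.const 1)))).add
        (PBd.const 1))
      (fun x l₁ l₂ e => by
        have := foldl_append_eq (fun b : β => g (x, b)) l₁ []
        simp only at this ⊢
        rw [this, List.nil_append]
        refine (sz_flatMap_le (k := q.eval (sz x + sz (l x) + 1)) ?_).trans ?_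
        · intro b hb
          refine (hq _).trans (eval_mono _ ?_)
          rw [sz_pair]
          have := sz_mem (l := l x) (a := b) (by rw [e]; exact List.mem_append_left _ hb)
          omega
        · have h1 := (length_le_sz l₁).trans (sz_prefix_le e)
          have h2 := Nat.mul_le_mul_right (q.eval (sz x + sz (l x) + 1)) h1
          omega)
  refine h.congr fun x => ?_
  have := foldl_append_eq (fun b : β => g (x, b)) (l x) []
  rw [this, List.nil_append]

theorem PT.replicate {n : α → ℕ} (hn : PT n) {f : α → β} (hf : PT f) :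
    PT fun x => List.replicate (n x) (f x) := by
  have h := PT.map (PT.units hn) (g := fun p => f p.1) (hf.comp PT.fst)
  exact h.congr fun x => by simp [PolyFun.units]

end Pool.Agent.Lib.PolyFun
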