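import Pool.Agent.Lib.PolyTM.Cmd

/-!
# Trees on a stack

Binary trees are written in prefix notation on the stack `main` of a while program; this file
contains the basic operations (drop, duplicate, swap, ...) with their running times.
-/

open Turing StateTransition

namespace Pool.Agent.Lib.PolyFun

open Pool.Agent.Lib.PolyTM

/-- Binary trees. -/
inductive Tr : Type
  | nil : Tr
  | cons : Tr → Tr → Tr

/-- The prefix code of a tree. -/
def Tr.code : Tr → List Bool
  | .nil => [false]
  | .cons a b => true :: (a.code ++ b.code)

theorem Tr.one_le_length (t : Tr) : 1 ≤ t.code.length := by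
  cases t <;> simp [Tr.code]

/-- The stacks. -/
inductive Stk : Type
  | inp | main | a | b | c | out
  deriving DecidableEq, Fintype

/-- The alphabets. -/
abbrev Ga : Stk → Type := fun _ => Bool

/-- The internal states: the last symbol that was read. -/
abbrev Va : Type := Option Bool

/-- Programs. -/
abbrev Prog : Type := Cmd Ga Va

/-- The contents of the stacks. -/
def st (inp main a b c out : List Bool) : ∀ k, List (Ga k)
  | .inp => inp
  | .main => main
  | .a => a
  | .b => b
  | .c => c
  | .out => out

section

variable (i m a b c o x : List Bool)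

@[simp] theorem upd_inp : Function.update (st i m a b c o) .inp x = st x m a b c o := by
  funext k; cases k <;> simp [st]

@[simp] theorem upd_main : Function.update (st i m a b c o) .main x = st i x a b c o := by
  funext k; cases k <;> simp [st]

@[simp] theorem upd_a : Function.update (st i m a b c o) .a x = st i m x b c o := by
  funext k; cases k <;> simp [st]

@[simp] theorem upd_b : Function.update (st i m a b c o) .b x = st i m a x c o := by
  funext k; cases k <;> simp [st]

@[simp] theorem upd_c : Function.update (st i m a b c o) .c x = st i m a b x o := by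
  funext k; cases k <;> simp [st]

@[simp] theorem upd_out : Function.update (st i m a b c o) .out x = st i m a b c x := by
  funext k; cases k <;> simp [st]

@[simp] theorem st_inp : st i m a b c o .inp = i := rfl
@[simp] theorem st_main : st i m a b c o .main = m := rfl
@[simp] theorem st_a : st i m a b c o .a = a := rfl
@[simp] theorem st_b : st i m a b c o .b = b := rfl
@[simp] theorem st_c : st i m a b c o .c = c := rfl
@[simp] theorem st_out : st i m a b c o .out = o := rfl

end

/-- The program `c` changes `S` to `S'` in at most `t` steps, whatever the internal state is. -/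
def Does (c : Prog) (S : ∀ k, List (Ga k)) (t : ℕ) (S' : ∀ k, List (Ga k)) : Prop :=
  ∀ v, ∃ v' n, n ≤ t ∧ Cmd.Run c v S n v' S'

theorem Does.mono {c : Prog} {S S' : ∀ k, List (Ga k)} {t t' : ℕ} (h : Does c S t S')
    (ht : t ≤ t') : Does c S t' S' := by
  intro v
  obtain ⟨v', n, hn, hr⟩ := h v
  exact ⟨v', n, hn.trans ht, hr⟩

theorem Does.seq {c₁ c₂ : Prog} {S S' S'' : ∀ k, List (Ga k)} {t t' : ℕ} (h₁ : Does c₁ S t S')
    (h₂ : Does c₂ S' t' S'') : Does (.seq c₁ c₂) S (t + t') S'' := by
  intro v
  obtain ⟨v', n, hn, hr⟩ := h₁ v
  obtain ⟨v'', n', hn', hr'⟩ := h₂ v'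
  exact ⟨v'', n + n', Nat.add_le_add hn hn', .seq hr hr'⟩

theorem Does.fin {c : Prog} {S S' S'' : ∀ k, List (Ga k)} {t t' : ℕ} (h : Does c S t S')
    (ht : t ≤ t') (e : S' = S'') : Does c S t' S'' := e ▸ h.mono ht

/-- Do nothing. -/
def skip : Prog := .load id

theorem does_skip (S : ∀ k, List (Ga k)) : Does skip S 1 S := fun v => ⟨v, 1, le_rfl, .load _ _ _⟩

/-- Push a symbol. -/
def push (x : Stk) (s : Bool) : Prog := .push x fun _ => s

theorem does_push (x : Stk) (s : Bool) (S : ∀ k, List (Ga k)) :
    Does (push x s) S 1 (Function.update S x (s :: S x)) :=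
  fun v => ⟨v, 1, le_rfl, .push _ _ _ _⟩

/-- Pop a symbol. -/
def pop (x : Stk) : Prog := .pop x fun v _ => v

theorem does_pop (x : Stk) (S : ∀ k, List (Ga k)) :
    Does (pop x) S 1 (Function.update S x (S x).tail) :=
  fun v => ⟨v, 1, le_rfl, .pop _ _ _ _⟩

/-- Move a symbol. -/
def mv (x y : Stk) : Prog := .seq (.pop x fun _ o => o) (.push y fun v => v.getD false)

theorem does_mv {x y : Stk} (S : ∀ k, List (Ga k)) {s : Bool} {l : List Bool}
    (h : S x = s :: l) : Does (mv x y) S 2
      (Function.update (Function.update S x l) y (s :: Function.update S x l y)) := by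
  intro v
  have h1 := Cmd.Run.pop (Γ := Ga) (σ := Va) x (fun _ o => o) v S
  have h2 := Cmd.Run.push (Γ := Ga) (σ := Va) y (fun v => v.getD false) (S x).head?
    (Function.update S x (S x).tail)
  have h3 := Cmd.Run.seq h1 h2
  rw [h] at h3
  exact ⟨_, 2, le_rfl, h3⟩

/-- Branch on the top symbol of a stack. -/
def ifTop (x : Stk) (P : Option Bool → Bool) (c₁ c₂ : Prog) : Prog :=
  .seq (.peek x fun _ o => o) (.ite P c₁ c₂)

theorem does_ifTop_true {x : Stk} {P : Option Bool → Bool} {c₁ c₂ : Prog}
    {S S' : ∀ k, List (Ga k)} {t : ℕ} (hP : P (S x).head? = true) (h : Does c₁ S t S') :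
    Does (ifTop x P c₁ c₂) S (t + 2) S' := by
  intro v
  obtain ⟨v'', n, hn, hr⟩ := h (S x).head?
  exact ⟨v'', 1 + (n + 1), by omega, .seq (.peek _ _ _ _) (.ite_true hP hr)⟩

theorem does_ifTop_false {x : Stk} {P : Option Bool → Bool} {c₁ c₂ : Prog}
    {S S' : ∀ k, List (Ga k)} {t : ℕ} (hP : P (S x).head? = false) (h : Does c₂ S t S') :
    Does (ifTop x P c₁ c₂) S (t + 2) S' := by
  intro v
  obtain ⟨v'', n, hn, hr⟩ := h (S x).head?
  exact ⟨v'', 1 + (n + 1), by omega, .seq (.peek _ _ _ _) (.ite_false hP hr)⟩

/-! ### While loops -/

/-- The loop without the initial test. -/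
def loopTop (x : Stk) (P : Option Bool → Bool) (c : Prog) : Prog :=
  .loop P (.seq c (.peek x fun _ o => o))

/-- Repeat `c` while the top symbol of the stack `x` satisfies `P`. -/
def whileTop (x : Stk) (P : Option Bool → Bool) (c : Prog) : Prog :=
  .seq (.peek x fun _ o => o) (loopTop x P c)

/-- The loop leads from `S` to `S'` (between two rounds) in at most `t` steps. -/
def Rch (x : Stk) (P : Option Bool → Bool) (c : Prog) (S : ∀ k, List (Ga k)) (t : ℕ)
    (S' : ∀ k, List (Ga k)) : Prop :=
  ∀ v, P v = P (S x).head? → ∃ v' n, n ≤ t ∧ P v' = P (S' x).head? ∧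
    ∀ k v'' S'', Cmd.Run (loopTop x P c) v' S' k v'' S'' →
      Cmd.Run (loopTop x P c) v S (n + k) v'' S''

theorem Rch.refl {x : Stk} {P : Option Bool → Bool} {c : Prog} (S : ∀ k, List (Ga k)) :
    Rch x P c S 0 S := fun v hv => ⟨v, 0, le_rfl, hv, fun k v'' S'' h => by rwa [Nat.zero_add]⟩

theorem Rch.trans {x : Stk} {P : Option Bool → Bool} {c : Prog} {S S' S'' : ∀ k, List (Ga k)}
    {t t' : ℕ} (h : Rch x P c S t S') (h' : Rch x P c S' t' S'') :
    Rch x P c S (t + t') S'' := by
  intro v hv
  obtain ⟨v₁, n₁, h1, h2, h3⟩ := h v hv
  obtain ⟨v₂, n₂, h4, h5, h6⟩ := h' v₁ h2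
  refine ⟨v₂, n₁ + n₂, by omega, h5, fun k v'' S'' hr => ?_⟩
  rw [Nat.add_assoc]
  exact h3 _ _ _ (h6 _ _ _ hr)

theorem Rch.mono {x : Stk} {P : Option Bool → Bool} {c : Prog} {S S' : ∀ k, List (Ga k)}
    {t t' : ℕ} (h : Rch x P c S t S') (ht : t ≤ t') : Rch x P c S t' S' := by
  intro v hv
  obtain ⟨v₁, n₁, h1, h2, h3⟩ := h v hv
  exact ⟨v₁, n₁, h1.trans ht, h2, h3⟩

theorem Rch.step {x : Stk} {P : Option Bool → Bool} {c : Prog} {S S' : ∀ k, List (Ga k)}
    {t : ℕ} (hP : P (S x).head? = true) (h : Does c S t S') : Rch x P c S (t + 2) S' := by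
  intro v hv
  obtain ⟨v₁, n₁, h1, h2⟩ := h v
  refine ⟨(S' x).head?, n₁ + 2, by omega, rfl, fun k v'' S'' hr => ?_⟩
  have := Cmd.Run.loop_true (p := P) (hv.trans hP) (Cmd.Run.seq h2
    (Cmd.Run.peek (Γ := Ga) (σ := Va) x (fun _ o => o) v₁ S')) hr
  rw [show n₁ + 2 + k = n₁ + 1 + k + 1 by omega]
  exact this

theorem Rch.finish {x : Stk} {P : Option Bool → Bool} {c : Prog} {S S' : ∀ k, List (Ga k)}
    {t : ℕ} (h : Rch x P c S t S') (hP : P (S' x).head? = false) :
    Does (whileTop x P c) S (t + 2) S' := by
  intro v
  obtain ⟨v₁, n₁, h1, h2, h3⟩ := h (S x).head? rfl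
  have := h3 _ _ _ (Cmd.Run.loop_false (p := P) (c := .seq c (.peek x fun _ o => o)) (S := S')
    (h2.trans hP))
  exact ⟨v₁, 1 + (n₁ + 1), by omega, .seq (.peek _ _ _ _) this⟩

/-! ### Scanning a tree -/

/-- One round of the scan: pop a symbol of `main`, copy it to the stacks `a` and `b` if desired,
and count the number of trees that remain. -/
def scanBody (pa pb : Bool) : Prog :=
  .seq (.pop .main fun _ o => o) (.seq (if pa then .push .a fun v => v.getD false else .load id)
    (.seq (if pb then .push .b fun v => v.getD false else .load id)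
      (.ite (fun v => v.getD false) (.push .c fun _ => true) (.pop .c fun v _ => v))))

theorem does_scanBody (pa pb s : Bool) (i m a b c o : List Bool) :
    Does (scanBody pa pb) (st i (s :: m) a b (true :: c) o) 5
      (st i m (if pa then s :: a else a) (if pb then s :: b else b)
        (if s then true :: true :: c else c) o) := by
  intro v
  have h1 := Cmd.Run.pop (Γ := Ga) (σ := Va) .main (fun _ o => o) v
    (st i (s :: m) a b (true :: c) o)
  have h2 : Cmd.Run (Γ := Ga) (σ := Va) (if pa then .push .a fun v => v.getD false else .load id)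
      (some s) (st i m a b (true :: c) o) 1 (some s)
      (st i m (if pa then s :: a else a) b (true :: c) o) := by
    cases pa
    · exact .load _ _ _
    · have := Cmd.Run.push (Γ := Ga) (σ := Va) .a (fun v => v.getD false) (some s)
        (st i m a b (true :: c) o)
      simpa using this
  have h3 : Cmd.Run (Γ := Ga) (σ := Va) (if pb then .push .b fun v => v.getD false else .load id)
      (some s) (st i m (if pa then s :: a else a) b (true :: c) o) 1 (some s)
      (st i m (if pa then s :: a else a) (if pb then s :: b else b) (true :: c) o) := by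
    cases pb
    · exact .load _ _ _
    · have := Cmd.Run.push (Γ := Ga) (σ := Va) .b (fun v => v.getD false) (some s)
        (st i m (if pa then s :: a else a) b (true :: c) o)
      simpa using this
  have h4 : Cmd.Run (Γ := Ga) (σ := Va) (.ite (fun v => v.getD false) (.push .c fun _ => true)
      (.pop .c fun v _ => v)) (some s)
      (st i m (if pa then s :: a else a) (if pb then s :: b else b) (true :: c) o) 2 (some s)
      (st i m (if pa then s :: a else a) (if pb then s :: b else b)
        (if s then true :: true :: c else c) o) := by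
    cases s
    · refine .ite_false rfl ?_
      have := Cmd.Run.pop (Γ := Ga) (σ := Va) .c (fun v _ => v) (some false)
        (st i m (if pa then false :: a else a) (if pb then false :: b else b) (true :: c) o)
      simpa using this
    · refine .ite_true rfl ?_
      have := Cmd.Run.push (Γ := Ga) (σ := Va) .c (fun _ => true) (some true)
        (st i m (if pa then true :: a else a) (if pb then true :: b else b) (true :: c) o)
      simpa using this
  simp only [st_main, List.head?_cons, List.tail_cons, upd_main] at h1
  exact ⟨_, _, le_rfl, .seq h1 (.seq h2 (.seq h3 h4))⟩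

theorem rch_scan (pa pb : Bool) (t : Tr) (i m a b c o : List Bool) :
    Rch .c (fun v => v.isSome) (scanBody pa pb) (st i (t.code ++ m) a b (true :: c) o)
      (7 * t.code.length)
      (st i m (if pa then t.code.reverse ++ a else a) (if pb then t.code.reverse ++ b else b)
        c o) := by
  induction t generalizing m a b c with
  | nil =>
    refine (Rch.step rfl ((does_scanBody pa pb false i m a b c o).fin (t' := 5) le_rfl ?_)).mono
      (by simp [Tr.code])
    simp [Tr.code]
  | cons x y ihx ihy =>
    have h1 : Rch .c (fun v => v.isSome) (scanBody pa pb)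
        (st i ((Tr.cons x y).code ++ m) a b (true :: c) o) 7
        (st i (x.code ++ (y.code ++ m)) (if pa then true :: a else a)
          (if pb then true :: b else b) (true :: true :: c) o) := by
      refine Rch.step rfl ((does_scanBody pa pb true i _ a b c o).fin (t' := 5) le_rfl ?_)
      simp
    have h2 := ihx (y.code ++ m) (if pa then true :: a else a) (if pb then true :: b else b)
      (true :: c)
    have h3 := ihy m (if pa then x.code.reverse ++ (if pa then true :: a else a) else
      (if pa then true :: a else a)) (if pb then x.code.reverse ++ (if pb then true :: b else b)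
      else (if pb then true :: b else b)) c
    have h4 := (h1.trans (h2.trans h3)).mono (t' := 7 * (Tr.cons x y).code.length)
      (by simp only [Tr.code, List.length_cons, List.length_append]; omega)
    convert h4 using 2
    · cases pa <;> simp [Tr.code]
    · cases pb <;> simp [Tr.code]

/-- Scan one tree. -/
def scan (pa pb : Bool) : Prog :=
  .seq (push .c true) (whileTop .c (fun v => v.isSome) (scanBody pa pb))

theorem does_scan (pa pb : Bool) (t : Tr) (i m a b o : List Bool) :
    Does (scan pa pb) (st i (t.code ++ m) a b [] o) (7 * t.code.length + 3)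
      (st i m (if pa then t.code.reverse ++ a else a) (if pb then t.code.reverse ++ b else b)
        [] o) := by
  have h1 := does_push .c true (st i (t.code ++ m) a b [] o)
  simp only [st_c, upd_c] at h1
  exact (h1.seq ((rch_scan pa pb t i m a b [] o).finish rfl)).mono (by omega)

/-- Move everything from the stack `x` to the stack `y`. -/
def mvAll (x y : Stk) : Prog := whileTop x (fun v => v.isSome) (mv x y)

theorem does_mvA (i m a b c o : List Bool) : Does (mvAll .a .main) (st i m a b c o)
    (4 * a.length + 2) (st i (a.reverse ++ m) [] b c o) := by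
  refine Rch.finish ?_ rfl
  induction a generalizing m with
  | nil => exact Rch.refl _
  | cons s a ih =>
    have h1 := does_mv (y := .main) (st i m (s :: a) b c o) (x := .a) (s := s) (l := a) rfl
    simp only [upd_a, st_main, upd_main] at h1
    have h2 := (Rch.step (x := .a) (P := fun v => v.isSome) rfl h1).trans (ih (s :: m))
    simp only [List.reverse_cons, List.append_assoc, List.singleton_append]
    exact h2.mono (by simp; omega)

theorem does_mvB (i m a b c o : List Bool) : Does (mvAll .b .main) (st i m a b c o)
    (4 * b.length + 2) (st i (b.reverse ++ m) a [] c o) := by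
  refine Rch.finish ?_ rfl
  induction b generalizing m with
  | nil => exact Rch.refl _
  | cons s b ih =>
    have h1 := does_mv (y := .main) (st i m a (s :: b) c o) (x := .b) (s := s) (l := b) rfl
    simp only [upd_b, st_main, upd_main] at h1
    have h2 := (Rch.step (x := .b) (P := fun v => v.isSome) rfl h1).trans (ih (s :: m))
    simp only [List.reverse_cons, List.append_assoc, List.singleton_append]
    exact h2.mono (by simp; omega)

theorem does_mvI (i m a b c o : List Bool) : Does (mvAll .inp .a) (st i m a b c o)
    (4 * i.length + 2) (st [] m (i.reverse ++ a) b c o) := by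
  refine Rch.finish ?_ rfl
  induction i generalizing a with
  | nil => exact Rch.refl _
  | cons s i ih =>
    have h1 := does_mv (y := .a) (st (s :: i) m a b c o) (x := .inp) (s := s) (l := i) rfl
    simp only [upd_inp, st_a, upd_a] at h1
    have h2 := (Rch.step (x := .inp) (P := fun v => v.isSome) rfl h1).trans (ih (s :: a))
    simp only [List.reverse_cons, List.append_assoc, List.singleton_append]
    exact h2.mono (by simp; omega)

/-! ### Operations on trees -/

/-- The memory whose only nonempty stack is `main`. -/
def M (l : List Bool) : ∀ k, List (Ga k) := st [] l [] [] [] []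

/-- Drop a tree. -/
def drop : Prog := scan false false

theorem does_drop (t : Tr) (m : List Bool) :
    Does drop (M (t.code ++ m)) (7 * t.code.length + 3) (M m) :=
  does_scan false false t [] m [] [] []

/-- Duplicate a tree. -/
def dup : Prog := .seq (scan true true) (.seq (mvAll .a .main) (mvAll .b .main))

theorem does_dup (t : Tr) (m : List Bool) :
    Does dup (M (t.code ++ m)) (15 * t.code.length + 7) (M (t.code ++ (t.code ++ m))) := by
  have h1 := does_scan true true t [] m [] [] []
  simp only [if_true, List.append_nil] at h1
  have h2 := does_mvA [] m t.code.reverse t.code.reverse [] []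
  have h3 := does_mvB [] (t.code.reverse.reverse ++ m) [] t.code.reverse [] []
  simp only [List.reverse_reverse, List.length_reverse] at h2 h3
  exact (h1.seq (h2.seq h3)).mono (by omega)

/-- Exchange two trees. -/
def swap : Prog :=
  .seq (scan true false) (.seq (scan false true) (.seq (mvAll .a .main) (mvAll .b .main)))

theorem does_swap (t u : Tr) (m : List Bool) :
    Does swap (M (t.code ++ (u.code ++ m))) (11 * t.code.length + 11 * u.code.length + 10)
      (M (u.code ++ (t.code ++ m))) := by
  have h1 := does_scan true false t [] (u.code ++ m) [] [] []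
  have h2 := does_scan false true u [] m t.code.reverse [] []
  simp only [if_true, List.append_nil, Bool.false_eq_true, if_false] at h1 h2
  have h3 := does_mvA [] m t.code.reverse u.code.reverse [] []
  have h4 := does_mvB [] (t.code.reverse.reverse ++ m) [] u.code.reverse [] []
  simp only [List.reverse_reverse, List.length_reverse] at h3 h4
  exact (h1.seq (h2.seq (h3.seq h4))).mono (by omega)

/-- Drop the second tree. -/
def nip : Prog := .seq (scan true false) (.seq drop (mvAll .a .main))

theorem does_nip (t u : Tr) (m : List Bool) :
    Does nip (M (t.code ++ (u.code ++ m))) (11 * t.code.length + 7 * u.code.length + 8)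
      (M (t.code ++ m)) := by
  have h1 := does_scan true false t [] (u.code ++ m) [] [] []
  have h2 := does_scan false false u [] m t.code.reverse [] []
  simp only [if_true, List.append_nil, Bool.false_eq_true, if_false] at h1 h2
  have h3 := does_mvA [] m t.code.reverse [] [] []
  simp only [List.reverse_reverse, List.length_reverse] at h3
  exact (h1.seq (h2.seq h3)).mono (by omega)

theorem does_pushM (s : Bool) (m : List Bool) : Does (push .main s) (M m) 1 (M (s :: m)) := by
  have := does_push .main s (M m)
  simpa [M] using this

theorem does_popM (s : Bool) (m : List Bool) : Does (pop .main) (M (s :: m)) 1 (M m) := by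
  have := does_pop .main (M (s :: m))
  simpa [M] using this

/-- Push a list of symbols. -/
def pushList : List Bool → Prog
  | [] => skip
  | s :: l => .seq (pushList l) (push .main s)

theorem does_pushList (l m : List Bool) :
    Does (pushList l) (M m) (l.length + 1) (M (l ++ m)) := by
  induction l with
  | nil => exact does_skip _
  | cons s l ih =>
    exact (ih.seq (does_pushM s (l ++ m))).mono (by simp)

end Pool.Agent.Lib.PolyFun
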